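import Mathlib
import Pool.Agent.H379Z.Fty.NoCode
import Pool.Agent.H379Z.Fty.Golden

/-!
# A Markov chain that is not an equal-entropy finitary factor of i.i.d. with exponential tails

The maximal-entropy chain on the golden mean shift gives every word of length `n + 1` probability
at most `φ^{-n}`, and its entropy is `log φ`.  An i.i.d. process of entropy `log φ` is not uniform,
so its information has downward deviations of size `η n` with probability `e^{-O(η² n)}`; a coding
window with exponential tails would force them to have probability `e^{-Ω(η n)}`.
-/

namespace Pool.Agent.Results.MP_207c40_pr.ANoCoding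

open MeasureTheory Pool.Agent.H379Z.Fty

/-- There is a stationary irreducible aperiodic finite-state Markov chain with exponential return
times such that no i.i.d. process of the same entropy has it as a finitary factor with
exponential tails of the coding window. -/
theorem result : ∃ (d : ℕ) (π : Fin d → ℝ) (P : Matrix (Fin d) (Fin d) ℝ)
    (μ : Measure (ℤ → Fin d)) (h : ℝ),
    IsMarkovLaw π P μ ∧ IrredAperiodic P ∧ ExpReturn μ ∧ HasEntropy μ h ∧
    ∀ (E : Type) [MeasurableSpace E] [StandardBorelSpace E] (ν : Measure E)
      [IsProbabilityMeasure ν], shannon ν = ENNReal.ofReal h → ¬ ExpFinitaryFactor ν μ := by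
  have hf : Gold Real.goldenRatio := ⟨Real.one_lt_goldenRatio, Real.goldenRatio_sq⟩
  obtain ⟨μ, hμ⟩ := exists_law hf
  refine ⟨2, _, _, μ, Real.log Real.goldenRatio, hμ, irred hf, expReturn hf hμ, hasEntropy hf hμ,
    fun E _ _ ν _ hs => no_code ν μ Real.one_lt_goldenRatio Real.goldenRatio_lt_two
      (fun n w => ?_) hs⟩
  rw [hμ.2.2.2]
  rcases word_bounds hf n w with h | h
  · rw [h]; have := Real.goldenRatio_pos; positivity
  · exact h.2

end Pool.Agent.Results.MP_207c40_pr.ANoCoding
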